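import Pool.Agent.Q162.Benzel.Adic3

/-!
# MP_b072c6_co : 2-adic continuity of the tiling counts of the (n, 2n-3)-benzels

The function `f n = T113 n (2n-3)`, `n ≥ 4`, is 2-adically continuous: for every `k ≥ 1` there is
`m` such that `n ≡ n' (mod 2^m)` implies `f n ≡ f n' (mod 2^k)`.
-/

namespace Pool.Agent.Results.MP_b072c6_co.BenzelAdic

open Pool.Agent.Q162.Benzel

theorem result (k : ℕ) (hk : 1 ≤ k) :
    ∃ m : ℕ, ∀ n n' : ℕ, 4 ≤ n → 4 ≤ n' → n ≡ n' [MOD 2 ^ m] →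
      T113 (n : ℤ) (2 * (n : ℤ) - 3) ≡ T113 (n' : ℤ) (2 * (n' : ℤ) - 3) [MOD 2 ^ k] :=
  Pool.Agent.Q162.Bz.adic_larger_one k hk

end Pool.Agent.Results.MP_b072c6_co.BenzelAdic
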